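import Pool.Agent.Work.MP_a7dd25_pr.Final

open MeasureTheory Filter Topology ProbabilityTheory
open Pool.Agent.Work.MP_a7dd25_pr

namespace Pool.Agent.Results.MP_a7dd25_pr.NonUniversality

/-- For every real `M` there is an admissible law `μ` without atom at `0` whose Kac polynomials
have, for all large degrees, at least `M` fewer expected real roots than the Gaussian ones.
In particular, the constants satisfy `C_ξ ≤ C_Gau - M`. -/
theorem result : ∀ M : ℝ, ∃ μ : Measure ℝ, Admissible μ ∧ μ {0} = 0 ∧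
    (∀ᶠ n : ℕ in atTop, expRoots μ n ≤ expRoots (gaussianReal 0 1) n - M) ∧
    (∀ C CG : ℝ,
      Tendsto (fun n : ℕ => expRoots μ n - 2 / Real.pi * Real.log n) atTop (𝓝 C) →
      Tendsto (fun n : ℕ => expRoots (gaussianReal 0 1) n - 2 / Real.pi * Real.log n) atTop (𝓝 CG) →
      C ≤ CG - M) := by
  intro M
  obtain ⟨μ, h1, h2, h3⟩ := main M
  refine ⟨μ, h1, h2, h3, ?_⟩
  intro C CG hC hCG
  have h4 : Tendsto (fun n : ℕ => expRoots (gaussianReal 0 1) n - 2 / Real.pi * Real.log n - M) atTop (𝓝 (CG - M)) :=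
    hCG.sub_const M
  refine le_of_tendsto_of_tendsto hC h4 ?_
  filter_upwards [h3] with n hn
  linarith

end Pool.Agent.Results.MP_a7dd25_pr.NonUniversality
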